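import Pool.Agent.H83.V.TW
import Pool.Agent.H77.V.VLB

/-!
Row WLB of the board lvw_modules (`MP_c59857_nt`, Theorem W): the labels.
-/

set_option autoImplicit false

open Finset Filter

namespace Pool.Agent.H96.W

open Pool.Agent.H83.V
open Pool.Agent.H28.MCL (ldB Aw)
open Pool.Agent.H77.V (aN_congr)
open Pool.Agent.H24.T2 (Pset)
open Pool.Agent.H67.AG (avgP)

lemma sum_biUnion_le' {ι : Type*} [DecidableEq ι] (S : Finset ι) (t : ι → Finset ℕ) (f : ℕ → ℝ)
    (hf : ∀ n, 0 ≤ f n) : ∑ n ∈ S.biUnion t, f n ≤ ∑ i ∈ S, ∑ n ∈ t i, f n := by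
  induction S using Finset.induction_on with
  | empty => simp
  | insert a s ha ih =>
    rw [Finset.biUnion_insert, Finset.sum_insert ha]
    have e := Finset.sum_union_inter (s₁ := t a) (s₂ := s.biUnion t) (f := f)
    have e2 : 0 ≤ ∑ n ∈ t a ∩ s.biUnion t, f n := Finset.sum_nonneg fun n _ => hf n
    linarith

lemma geo_le (S : Finset ℕ) : ∑ i ∈ S, ((1 : ℝ) / 2) ^ i ≤ 2 :=
  sum_le_hasSum S (fun i _ => by positivity) hasSum_geometric_two

lemma two_pow_inv (i : ℕ) : (1 : ℝ) / 2 ^ i = (1 / 2) ^ i := by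
  rw [div_pow, one_pow]

/-- number of complete blocks -/
lemma card_blocks (x y : ℕ) (hx : 0 < x) (S : Finset ℕ) (hS : ∀ i ∈ S, x ≤ 2 ^ i ∧ 2 ^ (i + 1) ≤ y) :
    (S.card : ℝ) ≤ 2 * Real.log ((y : ℝ) / x) ∨ S.card = 0 := by
  rcases S.eq_empty_or_nonempty with h | h
  · right; rw [h]; simp
  · left
    have ha := hS _ (S.min'_mem h)
    have hb := hS _ (S.max'_mem h)
    set a := S.min' h with hadef
    set b := S.max' h with hbdef
    have hab : a ≤ b := S.min'_le _ (S.max'_mem h)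
    have hsub : S ⊆ Finset.Icc a b := fun i hi => Finset.mem_Icc.mpr ⟨S.min'_le i hi, S.le_max' i hi⟩
    have hcard := Finset.card_le_card hsub
    rw [Nat.card_Icc] at hcard
    have hx0 : (0 : ℝ) < x := by exact_mod_cast hx
    have h2a : (x : ℝ) ≤ 2 ^ a := by exact_mod_cast ha.1
    have h2b : (2 : ℝ) ^ (b + 1) ≤ y := by exact_mod_cast hb.2
    have h3 : (2 : ℝ) ^ (b + 1 - a) ≤ (y : ℝ) / x := by
      rw [le_div_iff₀ hx0]
      calc (2 : ℝ) ^ (b + 1 - a) * x ≤ 2 ^ (b + 1 - a) * 2 ^ a := by gcongr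
        _ = 2 ^ (b + 1) := by rw [← pow_add]; congr 1; omega
        _ ≤ y := h2b
    have h4 := Real.log_le_log (by positivity) h3
    rw [Real.log_pow] at h4
    have h5 := Real.log_two_gt_d9
    have h6 : (S.card : ℝ) ≤ ((b + 1 - a : ℕ) : ℝ) := by exact_mod_cast hcard
    have h7 : (0 : ℝ) ≤ ((b + 1 - a : ℕ) : ℝ) := Nat.cast_nonneg _
    nlinarith

open Classical in
theorem pf_WLB (hW : T_WWN) (hB : T_WBL) (hN : T_WLN) (hY : T_WYS)
    (hL : Pool.Agent.H28.MCL.T_LDB) : T_WLB := by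
  intro z m I θ ρ hθ hρ hV
  obtain ⟨H, x, y, hH, hxy, hlen, hbig⟩ := hW z m I θ ρ hρ hV
  obtain ⟨η, hη⟩ : ∃ η : ℝ, η = θ ^ 4 / 10 ^ 19 := ⟨_, rfl⟩
  rw [← hη] at hbig ⊢
  have hη0 : 0 ≤ η := by
    rw [hη]
    positivity
  choose τ₀ hτ1 hτ2 using fun j i => hB z m I η (H j) i hη0 (by have := hH j; omega)
  have hmono : StrictMono x := strictMono_nat_of_lt_succ fun j =>
    (hxy j).2.1.trans_lt (hxy j).2.2
  have hdis : ∀ i j n : ℕ, x i ≤ n → n ≤ y i → x j ≤ n → n ≤ y j → i = j := by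
    have key : ∀ i j n : ℕ, i < j → n ≤ y i → x j ≤ n → False := by
      intro i j n hij h1 h2
      have h3 := (hxy i).2.2
      have h4 := hmono.monotone (show i + 1 ≤ j from hij)
      omega
    intro i j n h1 h2 h3 h4
    rcases lt_trichotomy i j with h | h | h
    · exact (key i j n h h2 h3).elim
    · exact h
    · exact (key j i n h h4 h1).elim
  obtain ⟨τ, hτ, hτf⟩ : ∃ τ : ℕ → ℕ → Bool,
      (∀ j i n, x j ≤ 2 ^ i → 2 ^ (i + 1) ≤ y j → 2 ^ i ≤ n → n < 2 ^ (i + 1) → τ n = τ₀ j i n) ∧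
      (∀ n, (¬ ∃ j, x j ≤ 2 ^ (Nat.log 2 n) ∧ 2 ^ (Nat.log 2 n + 1) ≤ y j) →
        τ n = fun _ => false) := by
    refine ⟨fun n => if h : ∃ j, x j ≤ 2 ^ (Nat.log 2 n) ∧ 2 ^ (Nat.log 2 n + 1) ≤ y j then
      τ₀ h.choose (Nat.log 2 n) n else fun _ => false, ?_, ?_⟩
    · intro j i n h1 h2 h3 h4
      have hlog : Nat.log 2 n = i := Nat.log_eq_of_pow_le_of_lt_pow h3 h4
      have h : ∃ j, x j ≤ 2 ^ (Nat.log 2 n) ∧ 2 ^ (Nat.log 2 n + 1) ≤ y j := ⟨j, by rw [hlog]; exact ⟨h1, h2⟩⟩
      simp only [dif_pos h]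
      have hc := h.choose_spec
      have p1 : 2 ^ (Nat.log 2 n) = 2 ^ i := by rw [hlog]
      have p2 : 2 ^ (Nat.log 2 n + 1) = 2 ^ (i + 1) := by rw [hlog]
      have e : h.choose = j := hdis _ _ n (hc.1.trans (p1.le.trans h3))
        (h4.le.trans (p2.ge.trans hc.2)) (h1.trans h3) (h4.le.trans h2)
      rw [e, hlog]
    · intro n h
      simp only [dif_neg h]
  obtain ⟨L, hLdef⟩ : ∃ L : ℕ → ℝ, L = fun j => Real.log ((y j : ℝ) / x j) := ⟨_, rfl⟩
  have hLj : ∀ j, Real.log ((y j : ℝ) / x j) = L j := fun j => by rw [hLdef]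
  simp only [hLj] at hlen hbig
  have hHj : ∀ j : ℕ, (j : ℝ) + 1 ≤ H j := fun j => by exact_mod_cast hH j
  have hLH : ∀ j : ℕ, (j : ℝ) * ((j : ℝ) + 1) ≤ L j := fun j =>
    (mul_le_mul_of_nonneg_left (hHj j) (Nat.cast_nonneg j)).trans (hlen j)
  have hL0 : ∀ j, 0 ≤ L j := fun j => le_trans (by positivity) (hLH j)
  have hUat : ((hyperfilter ℕ : Ultrafilter ℕ) : Filter ℕ) ≤ atTop := by
    rw [← Nat.cofinite_eq_atTop]
    exact hyperfilter_le_cofinite
  have hAw : Aw (hyperfilter ℕ) x y := by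
    refine ⟨fun j => (hxy j).1, ?_⟩
    refine Tendsto.mono_left ?_ hUat
    simp only [hLj]
    refine tendsto_atTop_mono (f := fun j : ℕ => (j : ℝ)) (fun j => ?_)
      tendsto_natCast_atTop_atTop
    refine le_trans ?_ (hLH j)
    have : (0 : ℝ) ≤ j := Nat.cast_nonneg j
    nlinarith
  obtain ⟨_, _, _, hup, hlo⟩ := hL (hyperfilter ℕ) x y hAw
  have hun : ∀ s t : Finset ℕ, ∑ n ∈ s ∪ t, (1 : ℝ) / n ≤
      ∑ n ∈ s, (1 : ℝ) / n + ∑ n ∈ t, (1 : ℝ) / n := by
    intro s t
    have e := Finset.sum_union_inter (s₁ := s) (s₂ := t) (f := fun n : ℕ => (1 : ℝ) / n)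
    have e2 : 0 ≤ ∑ n ∈ s ∩ t, (1 : ℝ) / n := Finset.sum_nonneg fun n _ => by positivity
    linarith
  refine ⟨hyperfilter ℕ, x, y, τ, θ ^ 2 * ρ / 640, by positivity, hAw, ?_, ?_⟩
  · obtain ⟨A, hA⟩ : ∃ A : Set ℕ, A = {n | τ n ≠ τ (n + 1)} := ⟨_, rfl⟩
    rw [← hA]
    refine le_antisymm ?_ ?_
    · refine le_of_forall_pos_le_add fun c hc => ?_
      rw [zero_add]
      refine hup _ c (hUat ?_)
      refine eventually_atTop.2 ⟨⌈8 / c⌉₊ + 1, fun j hj => ?_⟩
      rw [hLj]
      have hj1 : 8 / c ≤ j := by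
        refine (Nat.le_ceil _).trans ?_
        exact_mod_cast (by omega : ⌈8 / c⌉₊ ≤ j)
      have hj0 : (1 : ℝ) ≤ j := by exact_mod_cast (by omega : 1 ≤ j)
      obtain ⟨S, hSdef⟩ : ∃ S : Finset ℕ, S = (range (y j + 1)).filter
        (fun i => x j ≤ 2 ^ i ∧ 2 ^ (i + 1) ≤ y j) := ⟨_, rfl⟩
      have hSmem : ∀ i ∈ S, x j ≤ 2 ^ i ∧ 2 ^ (i + 1) ≤ y j := fun i hi => by
        rw [hSdef, Finset.mem_filter] at hi
        exact hi.2
      obtain ⟨bad, hbad⟩ : ∃ bad : ℕ → Finset ℕ, bad = fun i =>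
        (Ico (2 ^ i) (2 ^ (i + 1))).filter (fun n => τ₀ j i n ≠ τ₀ j i (n + 1)) := ⟨_, rfl⟩
      have hsub : (Icc (x j) (y j)).filter (fun n => n ∈ A) ⊆
          S.biUnion bad ∪ (range (y j + 1)).image (fun i : ℕ => (2 ^ (i + 1) - 1 : ℕ)) := by
        intro n hn
        rw [Finset.mem_filter, Finset.mem_Icc, hA] at hn
        obtain ⟨⟨hn1, hn2⟩, hn3⟩ := hn
        have hx := (hxy j).1
        have hn0 : n ≠ 0 := by omega
        have hp1 : 2 ^ (Nat.log 2 n) ≤ n := Nat.pow_log_le_self 2 hn0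
        have hp2 : n < 2 ^ (Nat.log 2 n + 1) := Nat.lt_pow_succ_log_self (by norm_num) n
        have hp3 : Nat.log 2 n < n := (Nat.lt_two_pow_self).trans_le hp1
        rw [Finset.mem_union]
        by_cases hend : n + 1 = 2 ^ (Nat.log 2 n + 1)
        · right
          rw [Finset.mem_image]
          exact ⟨Nat.log 2 n, Finset.mem_range.2 (by omega), by omega⟩
        · left
          have hlog2 : Nat.log 2 (n + 1) = Nat.log 2 n :=
            Nat.log_eq_of_pow_le_of_lt_pow (by omega) (by omega)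
          by_cases hex : ∃ j', x j' ≤ 2 ^ (Nat.log 2 n) ∧ 2 ^ (Nat.log 2 n + 1) ≤ y j'
          · obtain ⟨j', h1, h2⟩ := hex
            have e : j' = j := hdis _ _ n (h1.trans hp1) (hp2.le.trans h2) hn1 hn2
            subst e
            rw [Finset.mem_biUnion]
            refine ⟨Nat.log 2 n, ?_, ?_⟩
            · rw [hSdef, Finset.mem_filter, Finset.mem_range]
              exact ⟨by omega, h1, h2⟩
            · rw [hbad, Finset.mem_filter, Finset.mem_Ico]
              refine ⟨⟨hp1, hp2⟩, ?_⟩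
              have e1 := hτ j' _ n h1 h2 hp1 hp2
              have e2 := hτ j' _ (n + 1) h1 h2 (by omega) (by omega)
              rw [← e1, ← e2]
              exact hn3
          · exfalso
            apply hn3
            rw [hτf n hex, hτf (n + 1) (by rw [hlog2]; exact hex)]
      have h1 : ∑ n ∈ (Icc (x j) (y j)).filter (fun n => n ∈ A), (1 : ℝ) / n ≤
          (2 * L j) / H j + 6 := by
        refine (Finset.sum_le_sum_of_subset_of_nonneg hsub fun n _ _ => by positivity).trans ?_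
        refine (hun _ _).trans ?_
        have hH0 : (0 : ℝ) < H j := by have := hHj j; linarith
        have g1 : ∑ n ∈ S.biUnion bad, (1 : ℝ) / n ≤ (2 * L j) / H j + 4 := by
          refine (sum_biUnion_le' S bad (fun n => (1 : ℝ) / n) fun n => by positivity).trans ?_
          have g2 : ∀ i ∈ S, ∑ n ∈ bad i, (1 : ℝ) / n ≤ 1 / H j + 2 * (1 / 2) ^ i := by
            intro i _
            have hpi : (0 : ℝ) < 2 ^ i := by positivity
            calc ∑ n ∈ bad i, (1 : ℝ) / n ≤ ∑ n ∈ bad i, (1 : ℝ) / 2 ^ i := by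
                  apply Finset.sum_le_sum
                  intro n hn
                  rw [hbad, Finset.mem_filter, Finset.mem_Ico] at hn
                  apply one_div_le_one_div_of_le hpi
                  exact_mod_cast hn.1.1
              _ = ((bad i).card : ℝ) * (1 / 2 ^ i) := by
                  rw [Finset.sum_const, nsmul_eq_mul]
              _ ≤ (2 ^ i / (H j : ℝ) + 2) * (1 / 2 ^ i) := by
                  apply mul_le_mul_of_nonneg_right _ (by positivity)
                  rw [hbad]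
                  exact hτ1 j i
              _ = 1 / H j + 2 * (1 / 2) ^ i := by
                  rw [← two_pow_inv]
                  field_simp
          refine (Finset.sum_le_sum g2).trans ?_
          rw [Finset.sum_add_distrib, Finset.sum_const, nsmul_eq_mul, ← Finset.mul_sum]
          have g3 := geo_le S
          have g4 : (S.card : ℝ) * (1 / H j) ≤ (2 * L j) / H j := by
            rcases card_blocks (x j) (y j) (hxy j).1 S hSmem with h | h
            · rw [hLj] at h
              rw [mul_one_div]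
              exact div_le_div_of_nonneg_right h hH0.le
            · rw [h]
              have := hL0 j
              simp only [Nat.cast_zero, zero_mul]
              positivity
          linarith
        have g5 : ∑ n ∈ (range (y j + 1)).image (fun i : ℕ => (2 ^ (i + 1) - 1 : ℕ)), (1 : ℝ) / n ≤ 2 := by
          rw [Finset.sum_image]
          · refine le_trans (Finset.sum_le_sum fun i _ => ?_) (geo_le (range (y j + 1)))
            rw [← two_pow_inv]
            apply one_div_le_one_div_of_le (by positivity)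
            have h2 : 2 ^ i ≤ 2 ^ (i + 1) - 1 := by
              have : 1 ≤ 2 ^ i := Nat.one_le_two_pow
              rw [pow_succ]; omega
            exact_mod_cast h2
          · intro a _ b _ hab
            simp only at hab
            have h1 : 1 ≤ 2 ^ (a + 1) := Nat.one_le_two_pow
            have h2 : 1 ≤ 2 ^ (b + 1) := Nat.one_le_two_pow
            have h3 : 2 ^ (a + 1) = 2 ^ (b + 1) := by omega
            have := Nat.pow_right_injective (le_refl 2) h3
            omega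
        linarith
      refine h1.trans ?_
      have hjp : (0 : ℝ) < j := by linarith
      have h4 : (2 * L j) / H j ≤ (2 * L j) / j := div_le_div_of_nonneg_left
        (by have := hL0 j; linarith) hjp (by have := hHj j; linarith)
      have h5 : 6 ≤ 6 * (L j / j) := by
        have : 1 ≤ L j / j := by
          rw [le_div_iff₀ hjp, one_mul]
          have := hLH j
          nlinarith
        linarith
      have h6 : 8 * (L j / j) ≤ c * L j := by
        have h7 : 8 ≤ c * j := by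
          rw [div_le_iff₀ hc] at hj1
          linarith
        have h8 : 8 * (L j / j) = (8 * L j) / j := by ring
        rw [h8, div_le_iff₀ hjp]
        have := hL0 j
        nlinarith
      have h9 : (2 * L j) / j = 2 * (L j / j) := by ring
      linarith
    · refine hlo _ 0 (Eventually.of_forall fun j => ?_)
      rw [zero_mul]
      exact Finset.sum_nonneg fun n _ => by positivity
  · intro K k hK hk
    have hK' : (0 : ℝ) < K := by exact_mod_cast hK
    obtain ⟨C, hC⟩ : ∃ C : ℝ, C = 40 * (14 + k + 32 * K / θ + 32 / θ) / (θ * ρ) + 32 * K / θ := ⟨_, rfl⟩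
    refine hlo _ _ (hUat ?_)
    refine eventually_atTop.2 ⟨⌈C⌉₊ + 1, fun j hj => ?_⟩
    rw [hLj]
    have hj1 : C ≤ j := by
      refine (Nat.le_ceil _).trans ?_
      exact_mod_cast (by omega : ⌈C⌉₊ ≤ j)
    have hj0 : (1 : ℝ) ≤ j := by exact_mod_cast (by omega : 1 ≤ j)
    have hjp : (0 : ℝ) < j := by linarith
    have hC1 : 0 ≤ 40 * (14 + k + 32 * K / θ + 32 / θ) / (θ * ρ) := by positivity
    have hC2 : 0 ≤ 32 * K / θ := by positivity
    have hj2 : 32 * K / θ ≤ j := by linarith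
    have hj3 : 40 * (14 + k + 32 * K / θ + 32 / θ) / (θ * ρ) ≤ j := by linarith
    have hH0 : (0 : ℝ) < H j := by have := hHj j; linarith
    -- the blocks
    have hln := hN (Gn z m I η (H j)) θ (9 / 10 * ρ * L j) (x j) (y j) hθ (hxy j).1 (hxy j).2.1
      (hbig j)
    obtain ⟨T, hT⟩ : ∃ T : Finset ℕ, T = (range (y j + 1)).filter fun l : ℕ =>
        x j ≤ 2 ^ l ∧ 2 ^ (l + 1) ≤ y j ∧
        θ / 4 * 2 ^ l ≤ (((Ico (2 ^ l) (2 ^ (l + 1))).filter (Gn z m I η (H j))).card : ℝ) := ⟨_, rfl⟩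
    rw [← hT] at hln
    obtain ⟨a, ha⟩ : ∃ a : ℝ, a = 32 * (H j + K) / θ := ⟨_, rfl⟩
    have ha0 : 0 ≤ a := by rw [ha]; positivity
    obtain ⟨S, hS⟩ : ∃ S : Finset ℕ, S = T.filter fun l => 2 ^ (l + k + 2) ≤ y j ∧ a ≤ 2 ^ l := ⟨_, rfl⟩
    have hTS : (T.card : ℝ) ≤ S.card + (k + 2) + (a + 1) := by
      have h1 : T ⊆ S ∪ (T.filter fun l => ¬ 2 ^ (l + k + 2) ≤ y j) ∪
          (T.filter fun l => ¬ a ≤ 2 ^ l) := by
        intro l hl
        rw [Finset.mem_union, Finset.mem_union, hS, Finset.mem_filter, Finset.mem_filter,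
          Finset.mem_filter]
        by_cases c1 : 2 ^ (l + k + 2) ≤ y j
        · by_cases c2 : a ≤ 2 ^ l
          · exact Or.inl (Or.inl ⟨hl, c1, c2⟩)
          · exact Or.inr ⟨hl, c2⟩
        · exact Or.inl (Or.inr ⟨hl, c1⟩)
      have h2 : (T.filter fun l => ¬ 2 ^ (l + k + 2) ≤ y j).card ≤ k + 2 := by
        have h3 : (T.filter fun l => ¬ 2 ^ (l + k + 2) ≤ y j) ⊆
            Finset.Ico (Nat.log 2 (y j) - k - 1) (Nat.log 2 (y j) + 1) := by
          intro l hl
          rw [Finset.mem_filter, hT, Finset.mem_filter] at hl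
          obtain ⟨⟨_, _, h4, _⟩, h5⟩ := hl
          have hy0 : y j ≠ 0 := by
            have := (hxy j).1
            have := (hxy j).2.1
            omega
          have h6 : l + 1 ≤ Nat.log 2 (y j) := Nat.le_log_of_pow_le (by norm_num) h4
          have h7 : ¬ l + k + 2 ≤ Nat.log 2 (y j) := by
            intro h
            exact h5 (Nat.pow_le_of_le_log hy0 h)
          rw [Finset.mem_Ico]
          omega
        have h4 := Finset.card_le_card h3
        rw [Nat.card_Ico] at h4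
        omega
      have h3 : ((T.filter fun l => ¬ a ≤ 2 ^ l).card : ℝ) ≤ a + 1 := by
        have h4 : (T.filter fun l => ¬ a ≤ 2 ^ l) ⊆ range ⌈a⌉₊ := by
          intro l hl
          rw [Finset.mem_filter] at hl
          have h5 := not_le.mp hl.2
          rw [Finset.mem_range]
          apply Nat.lt_ceil.mpr
          have h6 : (l : ℝ) < 2 ^ l := by exact_mod_cast Nat.lt_two_pow_self
          linarith
        have h5 := Finset.card_le_card h4
        rw [Finset.card_range] at h5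
        have h6 := Nat.ceil_lt_add_one ha0
        have h7 : ((T.filter fun l => ¬ a ≤ 2 ^ l).card : ℝ) ≤ (⌈a⌉₊ : ℝ) := by exact_mod_cast h5
        linarith
      have h4 : T.card ≤ S.card + (T.filter fun l => ¬ 2 ^ (l + k + 2) ≤ y j).card +
          (T.filter fun l => ¬ a ≤ 2 ^ l).card := by
        refine (Finset.card_le_card h1).trans ((Finset.card_union_le _ _).trans ?_)
        have := Finset.card_union_le S (T.filter fun l => ¬ 2 ^ (l + k + 2) ≤ y j)
        omega
      have h5 : (T.card : ℝ) ≤ S.card + ((T.filter fun l => ¬ 2 ^ (l + k + 2) ≤ y j).card : ℝ) +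
          ((T.filter fun l => ¬ a ≤ 2 ^ l).card : ℝ) := by exact_mod_cast h4
      have h6 : ((T.filter fun l => ¬ 2 ^ (l + k + 2) ≤ y j).card : ℝ) ≤ k + 2 := by
        exact_mod_cast h2
      linarith
    -- the blocks of S satisfy the hypothesis of WYS
    have hSP : ∀ l ∈ S, x j ≤ 2 ^ l ∧ 2 ^ (l + k + 2) ≤ y j ∧
        θ / 16 * 2 ^ l ≤ (((Ico (2 ^ l) (2 ^ (l + 1))).filter
          (fun n => aN z I τ K n ≤ 2 * η)).card : ℝ) := by
      intro l hl
      rw [hS, Finset.mem_filter, hT, Finset.mem_filter] at hl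
      obtain ⟨⟨_, h1, h2, h3⟩, h4, h5⟩ := hl
      refine ⟨h1, h4, ?_⟩
      have hb := hτ2 j l K hK
      have hsubset : ((Ico (2 ^ l) (2 ^ (l + 1))).filter
          (fun n => n + K ≤ 2 ^ (l + 1) ∧ aN z I (τ₀ j l) K n ≤ 2 * η)) ⊆
          ((Ico (2 ^ l) (2 ^ (l + 1))).filter (fun n => aN z I τ K n ≤ 2 * η)) := by
        intro n hn
        rw [Finset.mem_filter, Finset.mem_Ico] at hn ⊢
        obtain ⟨⟨hn1, hn2⟩, hn3, hn4⟩ := hn
        refine ⟨⟨hn1, hn2⟩, ?_⟩
        rw [aN_congr z I τ (τ₀ j l) K n fun i hi => hτ j l (n + i) h1 h2 (by omega) (by omega)]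
        exact hn4
      have hcard : (((Ico (2 ^ l) (2 ^ (l + 1))).filter
          (fun n => n + K ≤ 2 ^ (l + 1) ∧ aN z I (τ₀ j l) K n ≤ 2 * η)).card : ℝ) ≤
          (((Ico (2 ^ l) (2 ^ (l + 1))).filter (fun n => aN z I τ K n ≤ 2 * η)).card : ℝ) := by
        exact_mod_cast Finset.card_le_card hsubset
      have hpl : (0 : ℝ) < 2 ^ l := by positivity
      have h6 : (H j : ℝ) + K ≤ θ / 32 * 2 ^ l := by
        rw [ha, div_le_iff₀ hθ] at h5
        linarith
      have h7 : (K : ℝ) * (2 ^ l / (H j : ℝ)) ≤ θ / 32 * 2 ^ l := by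
        have h8 : (K : ℝ) / H j ≤ θ / 32 := by
          rw [div_le_div_iff₀ hH0 (by norm_num)]
          rw [div_le_iff₀ hθ] at hj2
          have := hHj j
          nlinarith
        calc (K : ℝ) * (2 ^ l / (H j : ℝ)) = (K : ℝ) / H j * 2 ^ l := by ring
          _ ≤ θ / 32 * 2 ^ l := mul_le_mul_of_nonneg_right h8 hpl.le
      have h9 : (K : ℝ) * (2 ^ l / (H j : ℝ) + 1) = (K : ℝ) * (2 ^ l / (H j : ℝ)) + K := by ring
      rw [h9] at hb
      linarith
    have hfin := hY (fun n => aN z I τ K n ≤ 2 * η) θ k hθ hk S (x j) (y j) (hxy j).1 hSP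
    refine le_trans ?_ hfin
    -- the count
    have hLj0 := hL0 j
    obtain ⟨w, hw⟩ : ∃ w, w = L j / j := ⟨_, rfl⟩
    have hw1 : 1 ≤ w := by
      rw [hw, le_div_iff₀ hjp, one_mul]
      have := hLH j
      nlinarith
    have hHw : (H j : ℝ) ≤ w := by
      rw [hw, le_div_iff₀ hjp]
      have := hlen j
      linarith
    have hkey : (14 + k + 32 * K / θ + 32 / θ) * w ≤ θ * ρ / 40 * L j := by
      have h7 : 40 * (14 + k + 32 * K / θ + 32 / θ) ≤ j * (θ * ρ) := by
        rw [div_le_iff₀ (by positivity)] at hj3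
        exact hj3
      have h8 : (14 + k + 32 * K / θ + 32 / θ) * w = ((14 + k + 32 * K / θ + 32 / θ) * L j) / j := by
        rw [hw]; ring
      rw [h8, div_le_iff₀ hjp]
      have h9 := mul_le_mul_of_nonneg_right h7 hLj0
      linarith
    have hae : a = 32 / θ * H j + 32 * K / θ := by rw [ha]; ring
    have h32 : 0 < 32 / θ := by positivity
    have hsum : 10 + ((k : ℝ) + 2) + (a + 1) ≤ (14 + k + 32 * K / θ + 32 / θ) * w := by
      rw [hae]
      have g1 : 32 / θ * H j ≤ 32 / θ * w := mul_le_mul_of_nonneg_left hHw h32.le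
      have g2 : (14 + k + 32 * K / θ) * 1 ≤ (14 + k + 32 * K / θ) * w :=
        mul_le_mul_of_nonneg_left hw1 (by positivity)
      have g3 : (14 + k + 32 * K / θ + 32 / θ) * w = (14 + k + 32 * K / θ) * w + 32 / θ * w := by ring
      linarith
    have hScard : θ * ρ / 5 * L j ≤ S.card := by
      have g : θ / 4 * (9 / 10 * ρ * L j) = θ * ρ / 5 * L j + θ * ρ / 40 * L j := by ring
      linarith
    have := mul_le_mul_of_nonneg_left hScard (show 0 ≤ θ / 128 by positivity)
    calc θ ^ 2 * ρ / 640 * L j = θ / 128 * (θ * ρ / 5 * L j) := by ring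
      _ ≤ _ := this

end Pool.Agent.H96.W
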